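import Pool.Agent.W633.LT.BC

namespace Pool.Agent.W230.LG

open W633.LT

lemma mono_zero (k : Type) [Field k] (y : Raw) : y.mono k 0 = 1 := by
  rw [Raw.mono, dif_pos (y.mon.zero_mem)]
  rfl

section

variable {k : Type} [Field k] {S : Subdiv} {m : ℚ → ℚ → ℤ × ℤ}
  {E F : Bundle0 k S} {v l r : ℚ} {h : Adm S v l r} {N N' : MFam k}
  {φ : ∀ b c, E.mod (fibChart h b c) →+ N.mod b c}
  {φ' : ∀ b c, F.mod (fibChart h b c) →+ N'.mod b c}

/-- The isomorphism of the restrictions. -/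
noncomputable def Psi (hN : IsFib E h N φ) (hN' : IsFib F h N' φ')
    (ψ : ∀ x : Chart S, E.mod x ≃ₗ[x.1.ring k] F.mod x) (b c : SignType) :
    N.mod b c ≃ₗ[TorRing k b c] N'.mod b c :=
  LinearEquiv.ofLinearMap ((hN.bc b c).map (hN'.bc b c) (ψ (fibChart h b c)).toLinearMap)
    ((hN'.bc b c).map (hN.bc b c) (ψ (fibChart h b c)).symm.toLinearMap)
    ((hN'.bc b c).ext (fun e => by
      rw [LinearMap.comp_apply, IsBC.map_apply, IsBC.map_apply, LinearMap.id_apply]
      simp))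
    ((hN.bc b c).ext (fun e => by
      rw [LinearMap.comp_apply, IsBC.map_apply, IsBC.map_apply, LinearMap.id_apply]
      simp))

lemma Psi_apply (hN : IsFib E h N φ) (hN' : IsFib F h N' φ')
    (ψ : ∀ x : Chart S, E.mod x ≃ₗ[x.1.ring k] F.mod x) (b c : SignType)
    (e : E.mod (fibChart h b c)) :
    Psi hN hN' ψ b c (φ b c e) = φ' b c (ψ (fibChart h b c) e) :=
  (hN.bc b c).map_apply (hN'.bc b c) (ψ (fibChart h b c)).toLinearMap e

lemma key (hN : IsFib E h N φ) (hN' : IsFib F h N' φ')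
    (ψ : ∀ x : Chart S, E.mod x ≃ₗ[x.1.ring k] F.mod x)
    (hψ : ∀ {x y : Chart S} (h : IsHom 0 x.1 y.1) (e : E.mod x),
      F.res h (ψ x e) = y.1.mono k ((0, 0, m x.1.l x.1.r) - (0, 0, m y.1.l y.1.r)) •
        ψ y (E.res h e)) {b c b' c' : SignType} (hb : Sub b b') (hc : Sub c c')
    (n : N.mod b c) :
    N'.res hb hc (Psi hN hN' ψ b c n) =
      piC k h b' c' ((fibChart h b' c').1.mono k
        ((0, 0, m (fibChart h b c).1.l (fibChart h b c).1.r) -
          (0, 0, m (fibChart h b' c').1.l (fibChart h b' c').1.r))) •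
      Psi hN hN' ψ b' c' (N.res hb hc n) := by
  set T : TorRing k b' c' := piC k h b' c' ((fibChart h b' c').1.mono k
        ((0, 0, m (fibChart h b c).1.l (fibChart h b c).1.r) -
          (0, 0, m (fibChart h b' c').1.l (fibChart h b' c').1.r))) with hT
  let G : N.mod b c →+ N'.mod b' c' :=
    (N'.res hb hc).comp (Psi hN hN' ψ b c).toLinearMap.toAddMonoidHom
  let G' : N.mod b c →+ N'.mod b' c' :=
    { toFun := fun n => T • Psi hN hN' ψ b' c' (N.res hb hc n)
      map_zero' := by simp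
      map_add' := fun x y => by simp [smul_add] }
  have h1 : ∀ (a : TorRing k b c) (n : N.mod b c), G (a • n) = torMap k hb hc a • G n := by
    intro a n
    change N'.res hb hc (Psi hN hN' ψ b c (a • n)) =
      torMap k hb hc a • N'.res hb hc (Psi hN hN' ψ b c n)
    rw [map_smul, (N'.res_bc hb hc).1]
  have h2 : ∀ (a : TorRing k b c) (n : N.mod b c), G' (a • n) = torMap k hb hc a • G' n := by
    intro a n
    change T • Psi hN hN' ψ b' c' (N.res hb hc (a • n)) =
      torMap k hb hc a • (T • Psi hN hN' ψ b' c' (N.res hb hc n))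
    rw [(N.res_bc hb hc).1, map_smul, smul_smul, smul_smul, mul_comm]
  refine (hN.bc b c).ext_semi (ρ' := torMap k hb hc) (G := G) (G' := G') h1 h2 (fun e => ?_) n
  change N'.res hb hc (Psi hN hN' ψ b c (φ b c e)) =
    T • Psi hN hN' ψ b' c' (N.res hb hc (φ b c e))
  rw [Psi_apply, ← hN'.comm hb hc, ← hN.comm hb hc, Psi_apply,
    hψ (x := fibChart h b c) (y := fibChart h b' c') (fib_isHom hb hc) e, (hN'.bc b' c').1]

end

lemma piC_face {k : Type} [Field k] {S : Subdiv} {v l r : ℚ} (h : Adm S v l r) (b' : SignType)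
    (p q : ℤ × ℤ) (hpq : (p.1 : ℚ) * v + p.2 = q.1 * v + q.2) :
    piC k h b' 0 ((fibChart h b' 0).1.mono k ((0, 0, p) - (0, 0, q))) =
      chi k b' 0 (0, (p.1 - q.1) / v.den) := by
  have hmem : (((0, 0, p) - (0, 0, q) : W633.LT.Lat)) ∈ (fibRaw v l r b' 0).mon := by
    have h0 : (((p.1 - q.1 : ℤ)) : ℚ) * v + ((p.2 - q.2 : ℤ) : ℚ) = 0 := by
      push_cast
      linarith
    refine ⟨?_, ?_, ?_, ?_⟩
    · simp
    · simp
    · change (0 : ℚ) ≤ (((p.1 - q.1 : ℤ)) : ℚ) * v + ((p.2 - q.2 : ℤ) : ℚ)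
      exact h0.ge
    · change (0 : ℚ) ≤ (((p.1 - q.1 : ℤ)) : ℚ) * v + ((p.2 - q.2 : ℤ) : ℚ)
      exact h0.ge
  have h1 := piHom_mono k h.lv h.vr hmem
  change piHom k h.lv h.vr b' 0 ((fibRaw v l r b' 0).mono k ((0, 0, p) - (0, 0, q))) = _
  rw [h1, faceVal, if_pos]
  · congr 1
  · change (((p.1 - q.1 : ℤ)) : ℚ) * v + ((p.2 - q.2 : ℤ) : ℚ) = 0
    push_cast
    linarith

theorem rtwist : RTwist := by
  intro k _ S fn m E F v l r h N N' φ φ' hlift htw hN hN'
  obtain ⟨ψ, hψ⟩ := htw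
  refine ⟨Psi hN hN' ψ, ?_, ?_, ?_⟩
  · intro b b' hb c n
    rw [key (m := m) hN hN' ψ hψ hb (Sub.refl c) n]
    have h0 : ((0, 0, m (fibChart h b c).1.l (fibChart h b c).1.r) -
          (0, 0, m (fibChart h b' c).1.l (fibChart h b' c).1.r) : W633.LT.Lat) = 0 := by
      change ((0, 0, m (fibChart h b c).1.l (fibChart h b c).1.r) -
          (0, 0, m (fibChart h b c).1.l (fibChart h b c).1.r) : W633.LT.Lat) = 0
      exact sub_self _
    rw [h0, mono_zero, map_one, one_smul]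
  · intro b b' hb n
    rw [key (m := m) hN hN' ψ hψ hb (Sub.zero 1) n]
    have h1 := hlift (fibChart h b 1) v (by exact le_refl v) (by exact h.vr.le)
    have h2 := hlift (fibChart h b' 0) v (by exact le_refl v) (by exact le_refl v)
    have h3 := piC_face (k := k) h b' (m v r) (m v v) (by
      have e1 : fn v = ((m v r).1 : ℚ) * v + (m v r).2 := h1
      have e2 : fn v = ((m v v).1 : ℚ) * v + (m v v).2 := h2
      rw [← e1, ← e2])
    rw [← h3]
    rfl
  · intro b b' hb n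
    rw [key (m := m) hN hN' ψ hψ hb (Sub.zero (-1)) n]
    have h1 := hlift (fibChart h b (-1)) v (by exact h.lv.le) (by exact le_refl v)
    have h2 := hlift (fibChart h b' 0) v (by exact le_refl v) (by exact le_refl v)
    have h3 := piC_face (k := k) h b' (m l v) (m v v) (by
      have e1 : fn v = ((m l v).1 : ℚ) * v + (m l v).2 := h1
      have e2 : fn v = ((m v v).1 : ℚ) * v + (m v v).2 := h2
      rw [← e1, ← e2])
    rw [← h3]
    rfl

end Pool.Agent.W230.LG
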